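import Pool.Agent.H724.WE.SFStm

/-!
# Project WE (helper724), AB3: `S_noLightPair`
-/

set_option autoImplicit false

namespace H724.WE.H17

open Finset
open scoped Classical
open H724.WE

variable {V ι : Type} (G : SF V ι)

/-- A function with two violations of opposite sign on one band is a pump. -/
theorem isPump_of (y : V → ℕ) (i : ι) (s : Bool) (o o' : ℕ) (hoo : o ≠ o')
    (ho : G.r ≤ o ∧ o < G.l) (ho' : G.r ≤ o' ∧ o' < G.l)
    (hz : ∀ v ∈ G.Z, y v = 0)
    (h1 : y (G.pt s i o) = y (G.pt (!s) i o) + 1)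
    (h2 : y (G.pt (!s) i o') = y (G.pt s i o') + 1)
    (h0 : ∀ t k, min o o' < k → k < max o o' → y (G.pt t i k) = 0)
    (hM : ∀ k, min o o' < k → k ≤ max o o' → (i, k) ∉ G.Mk)
    (hc : ∀ j p, G.r ≤ p → p < G.l → (j, p) ≠ (i, o) → (j, p) ≠ (i, o') →
      y (G.pt false j p) = y (G.pt true j p)) : G.IsPump y := by
  refine ⟨⟨G.pt s i o, by omega⟩, hz, Or.inr ?_⟩
  rcases lt_or_gt_of_ne hoo with h | h
  · rw [min_eq_left h.le, max_eq_right h.le] at h0 hM
    exact ⟨i, s, o, o', h, ho.1, ho'.2, h1, h2, h0, hM, hc⟩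
  · rw [min_eq_right h.le, max_eq_left h.le] at h0 hM
    refine ⟨i, !s, o', o, h, ho'.1, ho.2, ?_, ?_, h0, hM, fun j p hp hp' a b => hc j p hp hp' b a⟩
    · rw [Bool.not_not]; exact h2
    · rw [Bool.not_not]; exact h1

theorem sg_mono (i : ι) {o o' : ℕ} (h : o ≤ o') : G.sg i o ≤ G.sg i o' := by
  unfold SF.sg
  refine card_le_card ?_
  intro e he
  rw [mem_filter] at he ⊢
  exact ⟨he.1, he.2.1, he.2.2.trans h⟩

theorem no_marker (i : ι) {o o' : ℕ} (h : o ≤ o') (hs : G.sg i o = G.sg i o') (k : ℕ) (h1 : o < k)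
    (h2 : k ≤ o') : (i, k) ∉ G.Mk := by
  intro hk
  unfold SF.sg at hs
  have hsub : G.Mk.filter (fun e => e.1 = i ∧ e.2 ≤ o) ⊆ G.Mk.filter (fun e => e.1 = i ∧ e.2 ≤ o') := by
    intro e he
    rw [mem_filter] at he ⊢
    exact ⟨he.1, he.2.1, he.2.2.trans h⟩
  have heq := eq_of_subset_of_card_le hsub hs.ge
  have : (i, k) ∈ G.Mk.filter (fun e => e.1 = i ∧ e.2 ≤ o') := by
    rw [mem_filter]
    exact ⟨hk, rfl, h2⟩
  rw [← heq, mem_filter] at this
  have := this.2.2
  simp only at this
  omega

theorem sg_between (i : ι) {o o' k : ℕ} (hs : G.sg i o = G.sg i o') (h1 : min o o' < k)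
    (h2 : k < max o o') : G.sg i k = G.sg i o := by
  rcases le_total o o' with h | h
  · rw [min_eq_left h] at h1
    rw [max_eq_right h] at h2
    have a := sg_mono G i h1.le
    have b := sg_mono G i h2.le
    omega
  · rw [min_eq_right h] at h1
    rw [max_eq_left h] at h2
    have a := sg_mono G i h1.le
    have b := sg_mono G i h2.le
    omega

theorem no_marker' (i : ι) {o o' : ℕ} (hs : G.sg i o = G.sg i o') (k : ℕ) (h1 : min o o' < k)
    (h2 : k ≤ max o o') : (i, k) ∉ G.Mk := by
  rcases le_total o o' with h | h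
  · rw [min_eq_left h] at h1
    rw [max_eq_right h] at h2
    exact no_marker G i h hs k h1 h2
  · rw [min_eq_right h] at h1
    rw [max_eq_left h] at h2
    exact no_marker G i h hs.symm k h1 h2

/-- An edge with an end in the far side of a light dart carries a light dart, nested in it. -/
theorem exists_light {i : ι} {o k : ℕ} {s t : Bool} (hd : G.val (i, o, s)) (hk : G.val (i, k, t))
    (hne : k ≠ o) (hl : G.light (i, o, s)) (h : G.pt t i k ∈ G.far (i, o, s)) :
    ∃ u : Bool, G.light (i, k, u) ∧ G.nested (i, o, s) (i, k, u) := by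
  have hed : ∀ u : Bool, ed (i, k, u) ≠ ed (i, o, s) := by
    intro u h
    simp only [ed, Prod.mk.injEq] at h
    exact hne h.2
  have hkv : ∀ u : Bool, G.val (i, k, u) := fun u => hk
  have both : ∀ u : Bool, G.tl (i, k, u) ∈ G.far (i, o, s) := by
    intro u
    -- `h : hd (i, k, t) ∈ far d`
    have h' : G.hd (i, k, t) ∈ G.far (i, o, s) := h
    have h'' : G.tl (i, k, t) ∈ G.far (i, o, s) := (G.far_closed_iff hk (hed t)).2 h'
    by_cases hu : u = t
    · subst hu; exact h''
    · have : u = !t := by cases u <;> cases t <;> simp_all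
      subst this
      have e : G.tl (i, k, !t) = G.hd (i, k, t) := by simp [SF.tl, SF.hd]
      rw [e]; exact h'
  have step : ∀ u : Bool, G.hd (i, o, s) ∉ G.far (i, k, u) →
      G.light (i, k, u) ∧ G.nested (i, o, s) (i, k, u) := by
    intro u hu
    have hn := G.nest hd (hkv u) (hed u) (both u) hu
    exact ⟨fun x hx => hl x (hn.1 hx), both u, hu⟩
  rcases G.dich (d := (i, o, s)) (f := (i, k, t)) hk with h1 | h1
  · exact ⟨t, step t h1⟩
  · exact ⟨!t, step (!t) h1⟩

theorem main (hNP : G.NoPump) (i : ι) : ∀ n : ℕ, ∀ (o o' : ℕ) (s t : Bool),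
    (o - o') + (o' - o) = n → G.val (i, o, s) → G.val (i, o', t) → G.light (i, o, s) →
    G.light (i, o', t) → o ≠ o' → G.sg i o = G.sg i o' →
    s = t ∧ ¬ G.nested (i, o, s) (i, o', t) := by
  intro n
  induction n using Nat.strong_induction_on with
  | _ n ih =>
  intro o o' s t hn hv hv' hl hl' hoo hsg
  have hval : ∀ (k : ℕ) (u : Bool), min o o' < k → k < max o o' → G.val (i, k, u) := by
    intro k u h1 h2
    have a := hv.1
    have b := hv.2
    have c := hv'.1
    have d := hv'.2
    simp only at a b c d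
    refine ⟨?_, ?_⟩
    · simp only
      rcases le_total o o' with h | h
      · rw [min_eq_left h] at h1; omega
      · rw [min_eq_right h] at h1; omega
    · simp only
      rcases le_total o o' with h | h
      · rw [max_eq_right h] at h2; omega
      · rw [max_eq_left h] at h2; omega
  have hed : ed (i, o, s) ≠ ed (i, o', t) := by
    intro h
    simp only [ed, Prod.mk.injEq] at h
    exact hoo h.2
  have hdist : ∀ k, min o o' < k → k < max o o' →
      (o - k) + (k - o) < n ∧ (k - o') + (o' - k) < n ∧ k ≠ o ∧ k ≠ o' := by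
    intro k h1 h2
    rcases le_total o o' with h | h
    · rw [min_eq_left h] at h1; rw [max_eq_right h] at h2; omega
    · rw [min_eq_right h] at h1; rw [max_eq_left h] at h2; omega
  -- a light dart strictly between, in the first case
  have hst : s = t := by
    by_contra hne
    have ht : t = !s := by cases s <;> cases t <;> simp_all
    subst ht
    have hno : ∀ (k : ℕ) (u : Bool), min o o' < k → k < max o o' → ¬ G.light (i, k, u) := by
      intro k u h1 h2 hlu
      obtain ⟨d1, d2, d3, d4⟩ := hdist k h1 h2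
      have hsk := sg_between G i hsg h1 h2
      by_cases hu : u = s
      · subst hu
        have := (ih _ d2 k o' u (!u) rfl (hval k u h1 h2) hv' hlu hl' d4 (by rw [hsk, hsg])).1
        cases u <;> simp at this
      · have hu' : u = !s := by cases s <;> cases u <;> simp_all
        subst hu'
        have := (ih _ d1 o k s (!s) rfl hv (hval k _ h1 h2) hl hlu (Ne.symm d3) hsk.symm).1
        cases s <;> simp at this
    set y : V → ℕ := fun x => (if x ∈ G.far (i, o, s) then 1 else 0) +
      (if x ∈ G.far (i, o', !s) then 1 else 0) with hy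
    refine hNP y (isPump_of G y i s o o' hoo hv hv' ?_ ?_ ?_ ?_ ?_ ?_)
    · intro v hvZ
      have a : v ∉ G.far (i, o, s) := fun h => hl v h hvZ
      have b : v ∉ G.far (i, o', !s) := fun h => hl' v h hvZ
      simp [hy, a, b]
    · have a : G.pt s i o ∈ G.far (i, o, s) := G.hd_mem_far (i, o, s)
      have b : G.pt (!s) i o ∉ G.far (i, o, s) := G.tl_not_mem_far hv
      have c : G.pt (!s) i o ∈ G.far (i, o', !s) ↔ G.pt s i o ∈ G.far (i, o', !s) :=
        G.far_closed_iff (d := (i, o', !s)) (f := (i, o, s)) hv hed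
      simp only [hy, a, b, c, if_true, if_false]
      omega
    · have a : G.pt (!s) i o' ∈ G.far (i, o', !s) := G.hd_mem_far (i, o', !s)
      have b : G.pt s i o' ∉ G.far (i, o', !s) := by
        have := G.tl_not_mem_far hv'
        simpa [SF.tl] using this
      have c : G.pt s i o' ∈ G.far (i, o, s) ↔ G.pt (!s) i o' ∈ G.far (i, o, s) := by
        have := G.far_closed_iff (d := (i, o, s)) (f := (i, o', !s)) hv' (Ne.symm hed)
        simpa [SF.tl, SF.hd] using this
      simp only [hy, a, b, c, if_true, if_false]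
    · intro u k h1 h2
      obtain ⟨d1, d2, d3, d4⟩ := hdist k h1 h2
      have a : G.pt u i k ∉ G.far (i, o, s) := by
        intro h
        obtain ⟨w, hw, _⟩ := exists_light G hv (hval k u h1 h2) d3 hl h
        exact hno k w h1 h2 hw
      have b : G.pt u i k ∉ G.far (i, o', !s) := by
        intro h
        obtain ⟨w, hw, _⟩ := exists_light G hv' (hval k u h1 h2) d4 hl' h
        exact hno k w h1 h2 hw
      simp [hy, a, b]
    · exact no_marker' G i hsg
    · intro j p hp hp' n1 n2
      have a : G.pt false j p ∈ G.far (i, o, s) ↔ G.pt true j p ∈ G.far (i, o, s) :=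
        G.far_closed_iff (d := (i, o, s)) (f := (j, p, true)) ⟨hp, hp'⟩ n1
      have b : G.pt false j p ∈ G.far (i, o', !s) ↔ G.pt true j p ∈ G.far (i, o', !s) :=
        G.far_closed_iff (d := (i, o', !s)) (f := (j, p, true)) ⟨hp, hp'⟩ n2
      simp only [hy, a, b]
  refine ⟨hst, ?_⟩
  subst hst
  rintro ⟨hn1, hn2⟩
  have htd : G.tl (i, o, s) ∉ G.far (i, o', s) := (G.nest hv hv' (Ne.symm hed) hn1 hn2).2
  set y : V → ℕ := fun x => if x ∈ G.far (i, o, s) ∧ x ∉ G.far (i, o', s) then 1 else 0 with hy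
  refine hNP y (isPump_of G y i s o o' hoo hv hv' ?_ ?_ ?_ ?_ ?_ ?_)
  · intro v hvZ
    have a : v ∉ G.far (i, o, s) := fun h => hl v h hvZ
    simp [hy, a]
  · have a : G.pt s i o ∈ G.far (i, o, s) := G.hd_mem_far (i, o, s)
    have b : G.pt (!s) i o ∉ G.far (i, o, s) := G.tl_not_mem_far hv
    have c : G.pt s i o ∉ G.far (i, o', s) := hn2
    simp [hy, a, b, c]
  · have a : G.pt s i o' ∈ G.far (i, o', s) := G.hd_mem_far (i, o', s)
    have b : G.pt (!s) i o' ∉ G.far (i, o', s) := G.tl_not_mem_far hv'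
    have c : G.pt (!s) i o' ∈ G.far (i, o, s) := hn1
    simp [hy, a, b, c]
  · intro u k h1 h2
    obtain ⟨d1, d2, d3, d4⟩ := hdist k h1 h2
    have a : G.pt u i k ∉ G.far (i, o, s) := by
      intro h
      obtain ⟨w, hw, hw'⟩ := exists_light G hv (hval k u h1 h2) d3 hl h
      have hsk := sg_between G i hsg h1 h2
      exact (ih _ d1 o k s w rfl hv (hval k _ h1 h2) hl hw (Ne.symm d3) hsk.symm).2 hw'
    simp [hy, a]
  · exact no_marker' G i hsg
  · intro j p hp hp' n1 n2
    have a : G.pt false j p ∈ G.far (i, o, s) ↔ G.pt true j p ∈ G.far (i, o, s) :=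
      G.far_closed_iff (d := (i, o, s)) (f := (j, p, true)) ⟨hp, hp'⟩ n1
    have b : G.pt false j p ∈ G.far (i, o', s) ↔ G.pt true j p ∈ G.far (i, o', s) :=
      G.far_closed_iff (d := (i, o', s)) (f := (j, p, true)) ⟨hp, hp'⟩ n2
    simp only [hy, a, b]

theorem noLightPair : S_noLightPair := by
  intro V ι G hNP i o o' s t hv hv' hl hl' hoo hsg
  have h1 := main G hNP i _ o o' s t rfl hv hv' hl hl' hoo hsg
  have h2 := main G hNP i _ o' o t s rfl hv' hv hl' hl (Ne.symm hoo) hsg.symm
  exact ⟨h1.1, h1.2, h2.2⟩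

end H724.WE.H17
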